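import Pool.Agent.H17.TE6

set_option autoImplicit false

namespace Pool.Agent.Results.MP_160dec_gt.Metr

theorem result (X : Type) [TopologicalSpace X] [T35Space X]
    (hextral : ∀ (Z : Type) [TopologicalSpace Z] [T35Space Z] (e : X → Z),
      Topology.IsClosedEmbedding e →
      ∃ φ : {f : X → ℝ // Continuous f} → {g : Z → ℝ // Continuous g},
        Continuous φ ∧ ∀ (f : {f : X → ℝ // Continuous f}) (x : X), (φ f).1 (e x) = f.1 x)
    (hextendial : ∀ F : Set X, IsClosed F →
      ∃ φ : {f : F → ℝ // Continuous f} → {g : X → ℝ // Continuous g},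
        Continuous φ ∧ ∀ (f : {f : F → ℝ // Continuous f}) (x : F), (φ f).1 x.1 = f.1 x) :
    TopologicalSpace.MetrizableSpace X :=
  Pool.Agent.H17.TE.Extral.extendial hextral hextendial

end Pool.Agent.Results.MP_160dec_gt.Metr
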